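import Pool.Agent.ZPU.StmtsB

/-!
Squad ZPU (MP_6e1a06_nt), row FNU: finiteness.
-/

set_option autoImplicit false

namespace Pool.Agent.ZPU.H69

open Polynomial Pool.Agent.ZPT Pool.Agent.ZP3

/-- The algebraic numbers embed into every algebraically closed field of characteristic 0. -/
lemma exists_emb (K : Type) [Field K] [CharZero K] [IsAlgClosed K] : Nonempty (Qb →+* K) := by
  have halg : Algebra.IsAlgebraic ℚ (algebraicClosure ℚ ℂ) := algebraicClosure.isAlgebraic ℚ ℂ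
  exact ⟨(IsAlgClosed.lift (R := ℚ) (S := algebraicClosure ℚ ℂ) (M := K)).toRingHom⟩

lemma hom_aeval {A B : Type} [CommRing A] [CommRing B] (φ : A →+* B) (t : A) (P : ℤ[X]) :
    φ (aeval t P) = aeval (φ t) P := by
  rw [aeval_def, aeval_def, hom_eval₂]
  congr 1
  exact RingHom.ext_int _ _

/-- The point of the curve with parameter `t`. -/
noncomputable def pt {L : Type} [Field L] [CharZero L] {n : ℕ} (l : ℚ) (F G : Fin n → ℤ[X])
    (t : L) : Fin n → L := fun i => (l : L) * aeval t (F i) / aeval t (G i)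

lemma hom_pt {A B : Type} [Field A] [CharZero A] [Field B] [CharZero B] (φ : A →+* B) {n : ℕ}
    (l : ℚ) (F G : Fin n → ℤ[X]) (t : A) (i : Fin n) :
    φ (pt l F G t i) = pt l F G (φ t) i := by
  unfold pt
  rw [map_div₀, map_mul, hom_aeval, hom_aeval, map_ratCast]

theorem fnu (hKX : KXStmt) (hPS : PSStmt) (hIC : ICStmt) (hIB : IBStmt) (hIK : IKStmt)
    (hNUM : NUMStmt) (hNID : NIDStmt) (hREV : REVStmt) (hLOCU : LOCUStmt) : FNUStmt := by
  intro p hp d n D F G hpd hH l hl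
  haveI : Fact p.Prime := ⟨hp⟩
  have h5 : 5 ≤ p := by omega
  have hK : Ext p ℂ_[p] := hKX p
  obtain ⟨U, Psi, hU, hPC, hPK⟩ := hPS
  have hPKK := hPK p hp h5 ℂ_[p] hK
  obtain ⟨ι⟩ := exists_emb ℂ_[p]
  obtain ⟨hG1, hG2, hrev⟩ := hREV p hp d n D F G hH
  obtain ⟨N₁, hN₁⟩ := hLOCU U Psi hU hPC p hp ℂ_[p] hK hPKK ι d n F G hpd hG1 l hl
  obtain ⟨N₂, hN₂⟩ := hLOCU U Psi hU hPC p hp ℂ_[p] hK hPKK ι d n _ _ hpd hG2 l hl
  choose NN EE hNN using fun (u v : Fin n) (m : ℕ) => hNUM (Psi m) l (F u) (G u) (F v) (G v)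
  have hNC : ∀ (u v : Fin n) (m : ℕ) (t : ℂ), aeval t (G u) ≠ 0 → aeval t (G v) ≠ 0 →
      (aeval t (NN u v m) = 0 ↔ ev2 (Psi m) (pt l F G t u) (pt l F G t v) = 0) := by
    intro u v m t h1 h2
    rw [hNN u v m ℂ t h1 h2]
    constructor
    · intro h
      rcases mul_eq_zero.1 h with h3 | h3
      · exact absurd h3 (pow_ne_zero _ (mul_ne_zero h1 h2))
      · exact h3
    · intro h
      have h' : ev2 (Psi m) ((l : ℂ) * aeval t (F u) / aeval t (G u))
        ((l : ℂ) * aeval t (F v) / aeval t (G v)) = 0 := h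
      rw [h', mul_zero]
  -- the embedding of the algebraic numbers in `ℂ`
  set c : Qb →+* ℂ := algebraMap Qb ℂ with hc
  have hc' : ∀ x : Qb, c x = (x : ℂ) := fun x => rfl
  have hne : ∀ (u v : Fin n) (m : ℕ), u ≠ v → 1 ≤ m → NN u v m ≠ 0 := by
    intro u v m huv hm h0
    obtain ⟨t, ht1, ht2, ht3, ht4⟩ := hNID p hp ℂ_[p] hK ι d n D F G hH l hl u v huv
    have h1 : aeval (c t) (G u) ≠ 0 := by
      rw [← hom_aeval]
      exact fun h => ht1 ((map_eq_zero c).1 h)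
    have h2 : aeval (c t) (G v) ≠ 0 := by
      rw [← hom_aeval]
      exact fun h => ht2 ((map_eq_zero c).1 h)
    have h3 := (hNC u v m (c t) h1 h2).1 (by rw [h0, map_zero])
    rw [← hom_pt c, ← hom_pt c, hc', hc'] at h3
    have h4 := hIB Psi hPC m hm _ _ h3
    have h5 := (hIK U Psi hU hPC p hp h5 ℂ_[p] hK hPKK ι _ _ h4 ht3).1
    exact absurd ht4 (not_le.2 h5)
  set N := max N₁ N₂ with hN
  -- the parameters
  have hkey : ∀ t : ℂ, (∀ i, aeval t (G i) ≠ 0) → Atyp (pt l F G t) →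
      ∃ u v : Fin n, u ≠ v ∧ ∃ m : ℕ, 1 ≤ m ∧ m ≤ N ∧ aeval t (NN u v m) = 0 := by
    intro t ht hat
    have halg : IsAlgebraic ℚ t := by
      obtain ⟨i, j, hij, hI⟩ : ∃ i j : Fin n, i ≠ j ∧ Isog (pt l F G t i) (pt l F G t j) := by
        rcases hat with ⟨i, j, k, h1, -, -, h2, -⟩ | ⟨i, j, k, m, h1, -, -, -, -, -, h2, -⟩
        · exact ⟨i, j, h1, h2⟩
        · exact ⟨i, j, h1, h2⟩
      obtain ⟨m, hm, hev⟩ := hIC Psi hPC _ _ hI
      exact ⟨NN i j m, hne i j m hij hm, (hNC i j m t (ht i) (ht j)).2 hev⟩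
    obtain ⟨s, hs⟩ : ∃ s : Qb, c s = t := ⟨⟨t, (mem_algebraicClosure_iff).2 halg⟩, rfl⟩
    have hGs : ∀ i, aeval s (G i) ≠ 0 := by
      intro i h
      apply ht i
      rw [← hs, ← hom_aeval, h, map_zero]
    have hat' : Atyp (fun i => ((pt l F G s i : Qb) : ℂ)) := by
      have e : (fun i => ((pt l F G s i : Qb) : ℂ)) = pt l F G t := by
        funext i
        rw [← hc', hom_pt, hs]
      rw [e]
      exact hat
    have hev : ∃ u v : Fin n, u ≠ v ∧ ∃ m : ℕ, 1 ≤ m ∧ m ≤ N ∧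
        ev2 (Psi m) ((pt l F G s u : Qb) : ℂ) ((pt l F G s v : Qb) : ℂ) = 0 := by
      by_cases h1 : ‖ι s‖ ≤ 1
      · obtain ⟨u, v, huv, m, hm1, hm2, hm3⟩ := hN₁ s (pt l F G s) h1
          (fun i => ⟨hGs i, rfl⟩) hat'
        exact ⟨u, v, huv, m, hm1, hm2.trans (le_max_left _ _), hm3⟩
      · have hs0 : s ≠ 0 := by
          rintro rfl
          rw [map_zero, norm_zero] at h1
          exact h1 zero_le_one
        have h2 : ‖ι s⁻¹‖ ≤ 1 := by
          rw [map_inv₀, norm_inv]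
          exact inv_le_one_of_one_le₀ (not_le.1 h1).le
        have h3 : ∀ i, aeval s⁻¹ (reflect (D i) (G i)) ≠ 0 ∧ pt l F G s i =
            (l : Qb) * aeval s⁻¹ (reflect (D i) (F i)) / aeval s⁻¹ (reflect (D i) (G i)) := by
          intro i
          obtain ⟨h4, h5⟩ := hrev Qb s hs0 i
          have h6 : aeval s⁻¹ (reflect (D i) (G i)) ≠ 0 := by
            intro h
            apply hGs i
            rw [h5, h, mul_zero]
          refine ⟨h6, ?_⟩
          have h7 : s ^ D i ≠ 0 := pow_ne_zero _ hs0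
          unfold pt
          rw [h4, h5]
          field_simp
        obtain ⟨u, v, huv, m, hm1, hm2, hm3⟩ := hN₂ s⁻¹ (pt l F G s) h2 h3 hat'
        exact ⟨u, v, huv, m, hm1, hm2.trans (le_max_right _ _), hm3⟩
    obtain ⟨u, v, huv, m, hm1, hm2, hm3⟩ := hev
    refine ⟨u, v, huv, m, hm1, hm2, (hNC u v m t (ht u) (ht v)).2 ?_⟩
    rw [← hc', ← hc', hom_pt, hom_pt, hs] at hm3
    exact hm3
  -- finiteness of the set of parameters
  have hS : {t : ℂ | ∃ u v : Fin n, u ≠ v ∧ ∃ m : ℕ, 1 ≤ m ∧ m ≤ N ∧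
      aeval t (NN u v m) = 0}.Finite := by
    have h1 : ∀ z : (Fin n × Fin n) × Fin (N + 1), {t : ℂ | z.1.1 ≠ z.1.2 ∧ 1 ≤ (z.2 : ℕ) ∧
        aeval t (NN z.1.1 z.1.2 z.2) = 0}.Finite := by
      intro z
      by_cases h : z.1.1 ≠ z.1.2 ∧ 1 ≤ (z.2 : ℕ)
      · refine (Polynomial.rootSet_finite (NN z.1.1 z.1.2 z.2) ℂ).subset ?_
        rintro t ⟨-, -, ht⟩
        exact (Polynomial.mem_rootSet).2 ⟨hne _ _ _ h.1 h.2, ht⟩
      · refine Set.finite_empty.subset ?_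
        rintro t ⟨h1, h2, -⟩
        exact absurd ⟨h1, h2⟩ h
    refine (Set.finite_iUnion h1).subset ?_
    rintro t ⟨u, v, huv, m, hm1, hm2, hm3⟩
    exact Set.mem_iUnion.2 ⟨((u, v), ⟨m, by omega⟩), huv, hm1, hm3⟩
  refine (hS.image (pt l F G)).subset ?_
  rintro x ⟨⟨t, ht⟩, hat⟩
  have hx : x = pt l F G t := funext fun i => (ht i).2
  refine ⟨t, hkey t (fun i => (ht i).1) (hx ▸ hat), hx.symm⟩

end Pool.Agent.ZPU.H69
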