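import Pool.Agent.ZPU.Stmts

/-!
Squad ZPU (MP_6e1a06_nt), row SML: coprime modulo `p`, not both small.
-/

set_option autoImplicit false

namespace Pool.Agent.ZPU.H69

open Polynomial Pool.Agent.ZPT Pool.Agent.ZP3

lemma norm_int_le_one {p : ℕ} [Fact p.Prime] {K : Type} [NormedField K] [CharZero K]
    (hK : Ext p K) (a : ℤ) : ‖((a : ℤ) : K)‖ ≤ 1 := by
  have h := hK (a : ℚ)
  rw [Rat.cast_intCast] at h
  rw [h]
  exact_mod_cast padicNorm.of_int a

lemma norm_aeval_le_one {p : ℕ} [Fact p.Prime] {K : Type} [NormedField K] [CharZero K]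
    [IsUltrametricDist K] (hK : Ext p K) (P : ℤ[X]) {t : K} (ht : ‖t‖ ≤ 1) :
    ‖aeval t P‖ ≤ 1 := by
  rw [aeval_eq_sum_range]
  refine IsUltrametricDist.norm_sum_le_of_forall_le_of_nonneg zero_le_one fun i _ => ?_
  rw [zsmul_eq_mul, norm_mul, norm_pow]
  exact mul_le_one₀ (norm_int_le_one hK _) (by positivity) (pow_le_one₀ (norm_nonneg _) ht)

theorem sml : SMLStmt := by
  intro p hp K _ _ _ hK A B hcop t ht
  haveI : Fact p.Prime := ⟨hp⟩
  obtain ⟨u, v, huv⟩ := hcop
  have hsurj := Polynomial.map_surjective (Int.castRingHom (ZMod p)) (ZMod.intCast_surjective)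
  obtain ⟨U, rfl⟩ := hsurj u
  obtain ⟨V, rfl⟩ := hsurj v
  have h0 : (U * A + V * B - 1).map (Int.castRingHom (ZMod p)) = 0 := by
    rw [Polynomial.map_sub, Polynomial.map_add, Polynomial.map_mul, Polynomial.map_mul,
      Polynomial.map_one]
    exact sub_eq_zero.2 huv
  have hdvd : C (p : ℤ) ∣ U * A + V * B - 1 := by
    rw [Polynomial.C_dvd_iff_dvd_coeff]
    intro i
    have := congrArg (fun q => coeff q i) h0
    simp only [coeff_map, coeff_zero, eq_intCast] at this
    exact (ZMod.intCast_zmod_eq_zero_iff_dvd _ _).1 this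
  obtain ⟨w, hw⟩ := hdvd
  have hev : aeval t U * aeval t A + aeval t V * aeval t B - 1 = (p : K) * aeval t w := by
    have := congrArg (aeval t) hw
    simpa using this
  have hpn : ‖(p : K)‖ < 1 := by
    have h := hK (p : ℚ)
    rw [Rat.cast_natCast, padicNorm.padicNorm_p hp.one_lt] at h
    rw [h]
    push_cast
    exact inv_lt_one_of_one_lt₀ (by exact_mod_cast hp.one_lt)
  have hU := norm_aeval_le_one hK U ht
  have hV := norm_aeval_le_one hK V ht
  have hA := norm_aeval_le_one hK A ht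
  have hB := norm_aeval_le_one hK B ht
  have hW := norm_aeval_le_one hK w ht
  by_contra hcon
  push Not at hcon
  have hA' : ‖aeval t A‖ < 1 := lt_of_le_of_ne hA hcon.1
  have hB' : ‖aeval t B‖ < 1 := lt_of_le_of_ne hB hcon.2
  have h1 : (1 : K) = aeval t U * aeval t A + aeval t V * aeval t B + -((p : K) * aeval t w) := by
    rw [← hev]
    ring
  have h2 : ‖(1 : K)‖ < 1 := by
    rw [h1]
    refine lt_of_le_of_lt (IsUltrametricDist.norm_add_le_max _ _) (max_lt ?_ ?_)
    · refine lt_of_le_of_lt (IsUltrametricDist.norm_add_le_max _ _) (max_lt ?_ ?_)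
      · rw [norm_mul]
        exact mul_lt_one_of_nonneg_of_lt_one_right hU (norm_nonneg _) hA'
      · rw [norm_mul]
        exact mul_lt_one_of_nonneg_of_lt_one_right hV (norm_nonneg _) hB'
    · rw [norm_neg, norm_mul]
      exact mul_lt_one_of_nonneg_of_lt_one_left (norm_nonneg _) hpn hW
  rw [norm_one] at h2
  exact lt_irrefl _ h2

end Pool.Agent.ZPU.H69
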