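import Pool.Agent.ZPU.Stmts

/-!
Squad ZPU (MP_6e1a06_nt), row WZH: wild case without special coordinate, one half.
-/

set_option autoImplicit false

namespace Pool.Agent.ZPU.H69

open Polynomial Pool.Agent.ZPT Pool.Agent.ZP3

lemma norm_pow_sub_pow_le {K : Type} [NormedField K] [IsUltrametricDist K] {x x' : K}
    (hx : ‖x‖ ≤ 1) (hx' : ‖x'‖ ≤ 1) (s : ℕ) : ‖x ^ s - x' ^ s‖ ≤ ‖x - x'‖ := by
  induction s with
  | zero => simp
  | succ s ih =>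
    have h : x ^ (s + 1) - x' ^ (s + 1) = x * (x ^ s - x' ^ s) + (x - x') * x' ^ s := by ring
    rw [h]
    refine (IsUltrametricDist.norm_add_le_max _ _).trans (max_le ?_ ?_)
    · rw [norm_mul]
      exact (mul_le_mul hx ih (norm_nonneg _) zero_le_one).trans (one_mul _).le
    · rw [norm_mul, norm_pow]
      exact (mul_le_mul_of_nonneg_left (pow_le_one₀ (norm_nonneg _) hx') (norm_nonneg _)).trans
        (mul_one _).le

theorem wzh (hURP : URPStmt) (hEVO : EVOStmt) (hSHR : SHRStmt) (hNWT : NWTStmt) (hFML : FMLStmt)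
    (hTEF : TEFStmt) (hWWN : WWNStmt) (hTHB : THBStmt) (hURR : URRStmt) (hRFF : RFFStmt) :
    WZHStmt := by
  intro p hp K _ _ _ hK D A₁ B₁ A₂ B₂ hD dA₁ dB₁ dA₂ dB₂ hInd t t₀ ω₁ ω₂ η a s ht₀ hty hω₁ hω₂
    ha hη nA₁ nB₁ nA₂ nB₂ h1 h2
  have hp5 : 5 ≤ p := by omega
  obtain ⟨tef1, tef2, -, -⟩ := hTEF p hp K hK
  obtain ⟨urr1, -, -, urr4, -⟩ := hURR p hp K hK
  obtain ⟨urp1, urp2, urp3, -, urp5, urp6⟩ := hURP p hp K hK
  obtain ⟨evo1, evo2, evo3, -, evo5, -, evo7⟩ := hEVO K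
  obtain ⟨thb1, thb2, thb3, thb4, -⟩ := hTHB p hp hp5
  obtain ⟨-, wwn2, wwn3, -⟩ := hWWN p hp (by omega) K hK a η ha hη
  obtain ⟨k, _, _, r, hr⟩ := hRFF p hp K hK
  obtain ⟨hU₀, hn₀, -⟩ := tef1 t₀ ht₀
  obtain ⟨-, ⟨uω₁, nω₁⟩, -⟩ := tef2 ω₁ hω₁
  obtain ⟨-, ⟨uω₂, nω₂⟩, -⟩ := tef2 ω₂ hω₂
  have hnt : ‖t‖ ≤ 1 := by
    have : t = (t - t₀) + t₀ := by ring
    rw [this]
    exact (IsUltrametricDist.norm_add_le_max _ _).trans (max_le hty.le hn₀)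
  have hp0 : (0 : ℝ) < (p : ℝ)⁻¹ := inv_pos.2 (by exact_mod_cast hp.pos)
  -- `1/p < th p`
  have hthp : (p : ℝ)⁻¹ < th p := by
    rw [← thb1]
    exact pow_lt_self_of_lt_one₀ thb2 thb3 (by omega)
  have hηn : ‖η‖ = 1 := by
    have h3 : ‖η‖ ^ (p ^ a) = 1 := by rw [← norm_pow, hη.pow_eq_one, norm_one]
    exact (pow_eq_one_iff_of_nonneg (norm_nonneg _) (pow_pos hp.pos a).ne').1 h3
  -- the distance of `t` and `t₀`
  have hθ : ‖η - 1‖ ≤ ‖t - t₀‖ := by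
    by_contra hlt
    push Not at hlt
    have e1 : aeval t A₁ - ω₁ * aeval t B₁ =
        (aeval t A₁ - ω₁ * η * aeval t B₁) + ω₁ * (η - 1) * aeval t B₁ := by ring
    have n2 : ‖ω₁ * (η - 1) * aeval t B₁‖ = ‖η - 1‖ := by
      rw [norm_mul, norm_mul, nω₁, nB₁, one_mul, mul_one]
    have n1 : ‖aeval t A₁ - ω₁ * aeval t B₁‖ = ‖η - 1‖ := by
      rw [e1, add_comm, IsUltrametricDist.norm_add_eq_max_of_norm_ne_norm, n2, max_eq_left]
      · exact h1.trans (hthp.le.trans wwn2)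
      · rw [n2]
        exact (lt_of_le_of_lt h1 (lt_of_lt_of_le hthp wwn2)).ne'
    have d1 : ‖(aeval t A₁ - ω₁ * aeval t B₁) - (aeval t₀ A₁ - ω₁ * aeval t₀ B₁)‖ ≤
        ‖t - t₀‖ := by
      have e2 : (aeval t A₁ - ω₁ * aeval t B₁) - (aeval t₀ A₁ - ω₁ * aeval t₀ B₁) =
          (aeval t A₁ - aeval t₀ A₁) + -(ω₁ * (aeval t B₁ - aeval t₀ B₁)) := by ring
      rw [e2]
      refine (IsUltrametricDist.norm_add_le_max _ _).trans (max_le ?_ ?_)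
      · exact (evo7 A₁ t t₀ hnt hn₀).2.1
      · rw [norm_neg, norm_mul, nω₁, one_mul]
        exact (evo7 B₁ t t₀ hnt hn₀).2.1
    have u1 : Ur p (aeval t₀ A₁ - ω₁ * aeval t₀ B₁) :=
      (urr1 _ _ (urp6 A₁ t₀ hU₀) (urr1 _ _ uω₁ (urp6 B₁ t₀ hU₀)).2.1).2.2.2
    have e3 : aeval t₀ A₁ - ω₁ * aeval t₀ B₁ = (aeval t A₁ - ω₁ * aeval t B₁) +
        -((aeval t A₁ - ω₁ * aeval t B₁) - (aeval t₀ A₁ - ω₁ * aeval t₀ B₁)) := by ring
    have n3 : ‖aeval t₀ A₁ - ω₁ * aeval t₀ B₁‖ < 1 := by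
      rw [e3]
      refine lt_of_le_of_lt (IsUltrametricDist.norm_add_le_max _ _) (max_lt ?_ ?_)
      · rw [n1]
        exact wwn3
      · rw [norm_neg]
        exact lt_of_le_of_lt d1 hty
    have n4 := urr4 _ u1 n3
    have e4 : aeval t A₁ - ω₁ * aeval t B₁ =
        ((aeval t A₁ - ω₁ * aeval t B₁) - (aeval t₀ A₁ - ω₁ * aeval t₀ B₁)) +
        (aeval t₀ A₁ - ω₁ * aeval t₀ B₁) := by ring
    have n5 : ‖aeval t A₁ - ω₁ * aeval t B₁‖ < ‖η - 1‖ := by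
      rw [e4]
      refine lt_of_le_of_lt (IsUltrametricDist.norm_add_le_max _ _) (max_lt ?_ ?_)
      · exact lt_of_le_of_lt d1 hlt
      · exact lt_of_le_of_lt n4 (lt_of_lt_of_le hthp wwn2)
    exact absurd n1 n5.ne
  have hθp : (p : ℝ)⁻¹ < ‖t - t₀‖ ^ (p - 2) := by
    calc (p : ℝ)⁻¹ = th p ^ (p - 1) := thb1.symm
      _ < th p ^ (p - 2) := pow_lt_pow_right_of_lt_one₀ thb2 thb3 (by omega)
      _ ≤ _ := pow_le_pow_left₀ thb2.le (wwn2.trans hθ) _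
  -- the polynomial `P`
  set τ : OO K := ⟨t₀, hn₀⟩ with hτ
  set o₁ : OO K := ⟨ω₁, nω₁.le⟩ with ho₁
  set o₂ : OO K := ⟨ω₂, nω₂.le⟩ with ho₂
  have cτ : ((τ : OO K) : K) = t₀ := rfl
  have co₁ : ((o₁ : OO K) : K) = ω₁ := rfl
  have co₂ : ((o₂ : OO K) : K) = ω₂ := rfl
  set P : (OO K)[X] := C o₁ ^ s * sh A₂ τ * sh B₁ τ ^ s - C o₂ * sh B₂ τ * sh A₁ τ ^ s with hP
  have hty' : t - t₀ + ((τ : OO K) : K) = t := by rw [cτ]; ring
  have evP : evO P (t - t₀) = ω₁ ^ s * aeval t A₂ * aeval t B₁ ^ s -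
      ω₂ * aeval t B₂ * aeval t A₁ ^ s := by
    rw [hP, (evo1 _ _ _).2.2, (evo1 _ _ _).2.1, (evo1 _ _ _).2.1, (evo1 _ _ _).2.1,
      (evo1 _ _ _).2.1, evo2, evo2, evo2, evo3, evo3, evo5, evo5, evo5, evo5, hty', co₁, co₂]
  have nP : ‖evO P (t - t₀)‖ ≤ (p : ℝ)⁻¹ := by
    have e5 : evO P (t - t₀) =
        ω₁ ^ s * aeval t B₁ ^ s * (aeval t A₂ - ω₂ * η ^ s * aeval t B₂) +
        -(ω₂ * aeval t B₂ * (aeval t A₁ ^ s - (ω₁ * η * aeval t B₁) ^ s)) := by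
      rw [evP]
      ring
    rw [e5]
    refine (IsUltrametricDist.norm_add_le_max _ _).trans (max_le ?_ ?_)
    · rw [norm_mul, norm_mul, norm_pow, norm_pow, nω₁, nB₁, one_pow, one_mul, one_mul]
      exact h2
    · rw [norm_neg, norm_mul, norm_mul, nω₂, nB₂, one_mul, one_mul]
      refine (norm_pow_sub_pow_le nA₁.le ?_ s).trans h1
      rw [norm_mul, norm_mul, nω₁, hηn, nB₁, one_mul, one_mul]
  have uS : ∀ A : ℤ[X], UrP p (sh A τ) := fun A => urp5 A τ hU₀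
  have uP : UrP p P := by
    refine (urp1 _ _ ?_ ?_).2.2
    · exact (urp1 _ _ (urp1 _ _ (urp2 _ (urp3 o₁ uω₁) s) (uS A₂)).2.1 (urp2 _ (uS B₁) s)).2.1
    · exact (urp1 _ _ (urp1 _ _ (urp3 o₂ uω₂) (uS B₂)).2.1 (urp2 _ (uS A₁) s)).2.1
  have hdvd := hNWT p hp K hK k r hr P (t - t₀) (p - 2) uP hty hθp (lt_of_le_of_lt nP hθp)
  rw [show p - 2 + 1 = p - 1 by omega] at hdvd
  -- reduction
  obtain ⟨shr1, shr2, shr3⟩ := hSHR p hp k
  obtain ⟨fml1, fml2, fml3, fml4, -, fml6⟩ := hFML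
  have hred : ∀ A : ℤ[X], (sh A τ).map r = tt p (r τ) (bar p A) := fun A => (shr3 K r hr A τ).1
  have hmul : ∀ A B : (ZMod p)[X], tt p (r τ) (A * B) = tt p (r τ) A * tt p (r τ) B :=
    fun A B => (shr1 (r τ) A B).2.1
  have hsub : ∀ A B : (ZMod p)[X], tt p (r τ) (A - B) = tt p (r τ) A - tt p (r τ) B :=
    fun A B => (shr1 (r τ) A B).2.2.1
  have hwr : ∀ A B : (ZMod p)[X], wr (tt p (r τ) A) (tt p (r τ) B) = tt p (r τ) (wr A B) :=
    fun A B => (shr1 (r τ) A B).2.2.2.1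
  have hdeg : ∀ A : (ZMod p)[X], (tt p (r τ) A).natDegree = A.natDegree :=
    fun A => (shr1 (r τ) A A).2.2.2.2.2.1
  have hzero : ∀ A : (ZMod p)[X], tt p (r τ) A = 0 ↔ A = 0 :=
    fun A => (shr1 (r τ) A A).2.2.2.2.2.2.1
  set a₁ := tt p (r τ) (bar p A₁) with ha₁
  set b₁ := tt p (r τ) (bar p B₁) with hb₁
  set a₂ := tt p (r τ) (bar p A₂) with ha₂
  set b₂ := tt p (r τ) (bar p B₂) with hb₂
  have hPm : P.map r = C (r o₁ ^ s) * a₂ * b₁ ^ s - C (r o₂) * b₂ * a₁ ^ s := by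
    rw [hP, Polynomial.map_sub, Polynomial.map_mul, Polynomial.map_mul, Polynomial.map_mul,
      Polynomial.map_mul, Polynomial.map_pow, Polynomial.map_pow, Polynomial.map_pow,
      Polynomial.map_C, Polynomial.map_C, hred, hred, hred, hred, C_pow]
  rw [hPm] at hdvd
  have hd1 := fml1 k (p - 1) _ _ hdvd
  rw [show p - 1 - 1 = p - 2 by omega] at hd1
  have hd2 : X ^ (p - 2) ∣ (C (r o₁ ^ s * r o₂) * (a₁ * b₁) ^ s) *
      (wr a₂ b₂ * (a₁ * b₁) - (s : k[X]) * (wr a₁ b₁ * (a₂ * b₂))) := by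
    rw [← fml4 k (r o₁ ^ s) (r o₂) s a₁ b₁ a₂ b₂]
    exact Dvd.dvd.mul_left hd1 _
  have hro : ∀ o : OO K, ‖(o : K)‖ = 1 → r o ≠ 0 := fun o ho h =>
    absurd ((hr o).1 h) (by rw [ho]; exact lt_irrefl _)
  have hc0 : ∀ A : ℤ[X], ‖aeval t A‖ = 1 → (tt p (r τ) (bar p A)).coeff 0 ≠ 0 := by
    intro A hA h
    have h3 := (shr3 K r hr A τ).2.2 h
    rw [cτ] at h3
    have h4 := (evo7 A t t₀ hnt hn₀).2.1
    have e6 : aeval t A = (aeval t A - aeval t₀ A) + aeval t₀ A := by ring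
    have h5 : ‖aeval t A‖ < 1 := by
      rw [e6]
      exact lt_of_le_of_lt (IsUltrametricDist.norm_add_le_max _ _)
        (max_lt (lt_of_le_of_lt h4 hty) h3)
    rw [hA] at h5
    exact lt_irrefl _ h5
  have hUc : (C (r o₁ ^ s * r o₂) * (a₁ * b₁) ^ s).coeff 0 ≠ 0 := by
    rw [coeff_zero_eq_eval_zero, eval_mul, eval_pow, eval_mul, eval_C,
      ← coeff_zero_eq_eval_zero, ← coeff_zero_eq_eval_zero]
    exact mul_ne_zero (mul_ne_zero (pow_ne_zero _ (hro o₁ nω₁)) (hro o₂ nω₂))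
      (pow_ne_zero _ (mul_ne_zero (hc0 A₁ nA₁) (hc0 B₁ nB₁)))
  have hd3 := fml2 k (p - 2) _ _ hUc hd2
  -- degrees
  have hdb : ∀ A : ℤ[X], A.natDegree ≤ D → (tt p (r τ) (bar p A)).natDegree ≤ D := by
    intro A hA
    rw [hdeg]
    exact (natDegree_map_le).trans hA
  have dw : ∀ A B C D' : k[X], A.natDegree ≤ D → B.natDegree ≤ D → C.natDegree ≤ D →
      D'.natDegree ≤ D → (wr A B * (C * D')).natDegree ≤ 4 * D := by
    intro A B C D' hA hB hC hD'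
    have h3 := fml6 k D D A B hA hB
    refine (natDegree_mul_le).trans ?_
    have h4 : (C * D').natDegree ≤ D + D := (natDegree_mul_le).trans (by omega)
    omega
  have hWdeg : (wr a₂ b₂ * (a₁ * b₁) - (s : k[X]) * (wr a₁ b₁ * (a₂ * b₂))).natDegree < p - 2 := by
    have h3 := dw a₂ b₂ a₁ b₁ (hdb _ dA₂) (hdb _ dB₂) (hdb _ dA₁) (hdb _ dB₁)
    have h4 := dw a₁ b₁ a₂ b₂ (hdb _ dA₁) (hdb _ dB₁) (hdb _ dA₂) (hdb _ dB₂)
    have h5 : ((s : k[X]) * (wr a₁ b₁ * (a₂ * b₂))).natDegree ≤ 4 * D := by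
      refine (natDegree_mul_le).trans ?_
      rw [natDegree_natCast]
      omega
    have h6 := natDegree_sub_le (wr a₂ b₂ * (a₁ * b₁)) ((s : k[X]) * (wr a₁ b₁ * (a₂ * b₂)))
    have h7 := max_le h3 h5
    omega
  have hW0 := fml3 k (p - 2) _ hd3 hWdeg
  -- back to the prime field
  have hscast : (s : k[X]) = tt p (r τ) (C (s : ZMod p)) := by
    rw [shr2, map_natCast, ← C_eq_natCast]
  have hfin : wr (bar p A₂) (bar p B₂) * (bar p A₁ * bar p B₁) -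
      C (s : ZMod p) * (wr (bar p A₁) (bar p B₁) * (bar p A₂ * bar p B₂)) = 0 := by
    rw [← hzero, hsub, hmul, hmul, hmul, hmul, hmul, ← hwr, ← hwr, ← hscast]
    exact hW0
  have hI := hInd (-(s : ZMod p)) 1 (by
    rw [← hfin]
    simp only [C_neg, C_1]
    ring)
  haveI : Fact p.Prime := ⟨hp⟩
  exact one_ne_zero hI.2

end Pool.Agent.ZPU.H69
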